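import Mathlib

/-!
# A bounded tolerance graph that is not a max-tolerance graph

The cocktail party graph `K_{2,...,2}` with `n` parts of size two is a bounded tolerance graph for
every `n`, but it is a max-tolerance graph only for `n ≤ 3`. So the answer to Q1 is no, and
`K_{2,2,2,2}` is a counterexample with eight vertices.

Idea: let `x y` be a non-edge of a max-tolerance representation in which no vertex is isolated.
Then for some order `(u, v)` of the two vertices one of the three inequalities `R u < L v + t v`,
`R u - t u < L v`, `R u - L u < t v` holds, while for the two ends of an edge none of them holds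
in any order. Two non-edges of the same type, all of whose four cross pairs are edges, give a
cyclic chain of inequalities; hence there are at most three such non-edges.
-/

set_option autoImplicit false

namespace Pool.Agent.Results.MP_78c384_co.CocktailParty

/-- The length `|I ∩ J|` of the intersection of the closed intervals `I = [a, b]` and
`J = [c, d]` (`0` if the intersection is empty). -/
noncomputable def overlap (a b c d : ℝ) : ℝ := max 0 (min b d - max a c)

/-- `G` is a bounded tolerance graph: there are closed intervals `[L v, R v]` and tolerances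
`t v > 0` with `t v ≤ R v - L v` such that distinct `x`, `y` are adjacent if and only if
`|I_x ∩ I_y| ≥ min (t x) (t y)`. -/
def IsBoundedTolerance {V : Type} (G : SimpleGraph V) : Prop :=
  ∃ L R t : V → ℝ, (∀ v, L v ≤ R v) ∧ (∀ v, 0 < t v) ∧ (∀ v, t v ≤ R v - L v) ∧
    ∀ x y, x ≠ y → (G.Adj x y ↔ min (t x) (t y) ≤ overlap (L x) (R x) (L y) (R y))

/-- `G` is a max-tolerance graph: there are closed intervals `[L v, R v]` and tolerances
`t v > 0` such that distinct `x`, `y` are adjacent if and only if
`|I_x ∩ I_y| ≥ max (t x) (t y)`. -/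
def IsMaxTolerance {V : Type} (G : SimpleGraph V) : Prop :=
  ∃ L R t : V → ℝ, (∀ v, L v ≤ R v) ∧ (∀ v, 0 < t v) ∧
    ∀ x y, x ≠ y → (G.Adj x y ↔ max (t x) (t y) ≤ overlap (L x) (R x) (L y) (R y))

/-- The cocktail party graph `K_{2,...,2}` with `n` parts of size two: two vertices are adjacent
if and only if they lie in different parts. -/
def cocktail (n : ℕ) : SimpleGraph (Fin n × Bool) where
  Adj u v := u.1 ≠ v.1
  symm := ⟨fun _ _ h => h.symm⟩
  loopless := ⟨fun _ h => h rfl⟩

/-- left hand sides of the three inequalities -/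
def lhs {V : Type} (L R t : V → ℝ) (k : Fin 3) (v : V) : ℝ :=
  if k = 0 then R v else if k = 1 then R v - t v else R v - L v

/-- right hand sides of the three inequalities -/
def rhs {V : Type} (L t : V → ℝ) (k : Fin 3) (v : V) : ℝ :=
  if k = 0 then L v + t v else if k = 1 then L v else t v

/-- for an edge none of the inequalities holds -/
lemma edge_ge {V : Type} (L R t : V → ℝ) (ht : ∀ v, 0 < t v) (x y : V)
    (h : max (t x) (t y) ≤ overlap (L x) (R x) (L y) (R y)) (k : Fin 3) :
    rhs L t k y ≤ lhs L R t k x ∧ rhs L t k x ≤ lhs L R t k y := by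
  have h1 : t x ≤ overlap (L x) (R x) (L y) (R y) := (le_max_left _ _).trans h
  have h2 : t y ≤ overlap (L x) (R x) (L y) (R y) := (le_max_right _ _).trans h
  have h3 : overlap (L x) (R x) (L y) (R y) = min (R x) (R y) - max (L x) (L y) := by
    unfold overlap at *
    rcases le_total 0 (min (R x) (R y) - max (L x) (L y)) with h0 | h0
    · exact max_eq_right h0
    · rw [max_eq_left h0] at h1
      exact absurd (lt_of_lt_of_le (ht x) h1) (lt_irrefl _)
  rw [h3] at h1 h2
  have a1 := min_le_left (R x) (R y)
  have a2 := min_le_right (R x) (R y)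
  have a3 := le_max_left (L x) (L y)
  have a4 := le_max_right (L x) (L y)
  fin_cases k <;> simp [lhs, rhs] <;> constructor <;> linarith

/-- for a non-edge whose ends are not isolated one of the inequalities holds -/
lemma nonedge_lt {V : Type} (L R t : V → ℝ) (x y : V)
    (hx : t x ≤ R x - L x) (hy : t y ≤ R y - L y)
    (h : ¬ max (t x) (t y) ≤ overlap (L x) (R x) (L y) (R y)) :
    ∃ k : Fin 3, lhs L R t k x < rhs L t k y ∨ lhs L R t k y < rhs L t k x := by
  have h1 : min (R x) (R y) - max (L x) (L y) < max (t x) (t y) := by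
    refine lt_of_le_of_lt ?_ (not_le.1 h)
    exact le_max_right _ _
  by_contra hcon
  push Not at hcon
  have k0 := hcon 0
  have k1 := hcon 1
  have k2 := hcon 2
  simp [lhs, rhs] at k0 k1 k2
  rcases le_total (R x) (R y) with hR | hR <;> rcases le_total (L x) (L y) with hL | hL <;>
    rcases le_total (t x) (t y) with hT | hT <;>
    simp only [min_eq_left hR, min_eq_right hR, max_eq_left hL, max_eq_right hL,
      max_eq_left hT, max_eq_right hT] at h1 <;> linarith [k0.1, k0.2, k1.1, k1.2, k2.1, k2.2]

/-- at most three pairwise completely joined non-edges -/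
lemma not_max {n : ℕ} (hn : 4 ≤ n) : ¬ IsMaxTolerance (cocktail n) := by
  rintro ⟨L, R, t, -, ht, h⟩
  have hadj : ∀ i j : Fin n, i ≠ j → ∀ b c : Bool, (cocktail n).Adj (i, b) (j, c) :=
    fun i j hij b c => hij
  have hne : ∀ i j : Fin n, i ≠ j → ∀ b c : Bool, ((i, b) : Fin n × Bool) ≠ (j, c) :=
    fun i j hij b c he => hij (congrArg Prod.fst he)
  have hedge : ∀ i j : Fin n, i ≠ j → ∀ b c : Bool, ∀ k : Fin 3,
      rhs L t k (j, c) ≤ lhs L R t k (i, b) ∧ rhs L t k (i, b) ≤ lhs L R t k (j, c) :=
    fun i j hij b c k => edge_ge L R t ht _ _ ((h _ _ (hne i j hij b c)).1 (hadj i j hij b c)) k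
  have hlen : ∀ i : Fin n, ∀ b : Bool, t (i, b) ≤ R (i, b) - L (i, b) := by
    intro i b
    obtain ⟨j, hj⟩ : ∃ j : Fin n, i ≠ j := by
      by_contra hcon
      push Not at hcon
      have e1 := hcon ⟨0, by omega⟩
      have e2 := hcon ⟨1, by omega⟩
      have := e1.symm.trans e2
      simp [Fin.ext_iff] at this
    have h0 := (h _ _ (hne i j hj b b)).1 (hadj i j hj b b)
    have h1 : t (i, b) ≤ overlap (L (i, b)) (R (i, b)) (L (j, b)) (R (j, b)) :=
      (le_max_left _ _).trans h0
    have h2 := ht (i, b)
    unfold overlap at h1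
    rcases le_total 0 (min (R (i, b)) (R (j, b)) - max (L (i, b)) (L (j, b))) with h0' | h0'
    · rw [max_eq_right h0'] at h1
      have a1 := min_le_left (R (i, b)) (R (j, b))
      have a3 := le_max_left (L (i, b)) (L (j, b))
      linarith
    · rw [max_eq_left h0'] at h1
      linarith
  have hnon : ∀ i : Fin n, ∃ k : Fin 3, ∃ b : Bool,
      lhs L R t k (i, b) < rhs L t k (i, !b) := by
    intro i
    have hne' : ((i, false) : Fin n × Bool) ≠ (i, true) := by simp
    have hn' : ¬ (cocktail n).Adj (i, false) (i, true) := fun hh => hh rfl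
    obtain ⟨k, hk⟩ := nonedge_lt L R t (i, false) (i, true) (hlen i false) (hlen i true)
      (fun hh => hn' ((h _ _ hne').2 hh))
    rcases hk with hk | hk
    · exact ⟨k, false, by simpa using hk⟩
    · exact ⟨k, true, by simpa using hk⟩
  choose k b hk using hnon
  obtain ⟨i, j, hij, hkk⟩ : ∃ i j : Fin n, i ≠ j ∧ k i = k j := by
    have hcard : Fintype.card (Fin 3) < Fintype.card (Fin n) := by simp; omega
    exact Fintype.exists_ne_map_eq_of_card_lt k hcard
  have h1 := hk i
  have h2 := hk j
  rw [← hkk] at h2
  have h3 := (hedge i j hij (!(b i)) (b j) (k i)).2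
  have h4 := (hedge i j hij (b i) (!(b j)) (k i)).1
  linarith

/-- all cocktail party graphs are bounded tolerance graphs -/
lemma bounded (n : ℕ) : IsBoundedTolerance (cocktail n) := by
  refine ⟨fun v => -(4 * (v.1 : ℝ) + 4) + (if v.2 then 1 else 0),
    fun v => (4 * (v.1 : ℝ) + 4) + (if v.2 then 1 else 0), fun v => 8 * (v.1 : ℝ) + 8,
    ?_, ?_, ?_, ?_⟩
  · intro v
    have : (0 : ℝ) ≤ (v.1 : ℝ) := by positivity
    beta_reduce
    split_ifs <;> linarith
  · intro v
    positivity
  · intro v
    beta_reduce
    split_ifs <;> linarith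
  · rintro ⟨i, b⟩ ⟨j, c⟩ hne
    have hi : (0 : ℝ) ≤ (i : ℝ) := by positivity
    have hj : (0 : ℝ) ≤ (j : ℝ) := by positivity
    have key : ∀ (x y : ℝ) (p q : Bool), 0 ≤ x → x + 1 ≤ y →
        min (8 * x + 8) (8 * y + 8) ≤ overlap (-(4 * x + 4) + (if p then 1 else 0))
          ((4 * x + 4) + (if p then 1 else 0)) (-(4 * y + 4) + (if q then 1 else 0))
          ((4 * y + 4) + (if q then 1 else 0)) := by
      intro x y p q hx hxy
      have hp0 : (0 : ℝ) ≤ (if p then 1 else 0) := by split_ifs <;> norm_num
      have hp1 : (if p then 1 else 0 : ℝ) ≤ 1 := by split_ifs <;> norm_num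
      have hq0 : (0 : ℝ) ≤ (if q then 1 else 0) := by split_ifs <;> norm_num
      have hq1 : (if q then 1 else 0 : ℝ) ≤ 1 := by split_ifs <;> norm_num
      unfold overlap
      rw [min_eq_left (by linarith : 8 * x + 8 ≤ 8 * y + 8),
        min_eq_left (by linarith : (4 * x + 4) + (if p then 1 else 0 : ℝ)
          ≤ (4 * y + 4) + (if q then 1 else 0)),
        max_eq_left (by linarith : -(4 * y + 4) + (if q then 1 else 0 : ℝ)
          ≤ -(4 * x + 4) + (if p then 1 else 0))]
      refine le_max_of_le_right ?_
      linarith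
    constructor
    · intro hadj
      have hij : i ≠ j := hadj
      rcases lt_or_gt_of_ne hij with hlt | hlt
      · have hr : (i : ℝ) + 1 ≤ (j : ℝ) := by exact_mod_cast hlt
        exact key _ _ b c hi hr
      · have hr : (j : ℝ) + 1 ≤ (i : ℝ) := by exact_mod_cast hlt
        have := key _ _ c b hj hr
        unfold overlap at *
        rw [min_comm, min_comm (4 * (i : ℝ) + 4 + _), max_comm (-(4 * (i : ℝ) + 4) + _)]
        exact this
    · intro hle hij
      simp only at hij
      subst hij
      have hbc : b ≠ c := fun h => hne (by rw [h])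
      simp only [min_self] at hle
      unfold overlap at hle
      have hlt : max 0 (min ((4 * (i : ℝ) + 4) + (if b then 1 else 0))
          ((4 * (i : ℝ) + 4) + (if c then 1 else 0)) -
          max (-(4 * (i : ℝ) + 4) + (if b then 1 else 0))
          (-(4 * (i : ℝ) + 4) + (if c then 1 else 0))) < 8 * (i : ℝ) + 8 := by
        apply max_lt (by linarith)
        cases b <;> cases c <;> simp at hbc ⊢ <;> linarith
      linarith

/-- left ends for three pairs -/
def l3 (i : ℕ) (b : Bool) : ℝ :=
  if i = 0 then (if b then 0 else 4) else if i = 1 then (if b then 0 else 3)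
    else (if b then 1 else 3)

/-- right ends for three pairs -/
def r3 (i : ℕ) (b : Bool) : ℝ :=
  if i = 0 then (if b then 7 else 12) else if i = 1 then (if b then 11 else 7)
    else (if b then 6 else 9)

/-- tolerances for three pairs -/
def t3 (i : ℕ) (b : Bool) : ℝ :=
  if i = 0 then (if b then 4 else 1) else if i = 1 then (if b then 5 else 3)
    else (if b then 2 else 4)

lemma three_ok (i j : ℕ) (hi : i < 3) (hj : j < 3) (b c : Bool) (h : i ≠ j ∨ b ≠ c) :
    i ≠ j ↔ max (t3 i b) (t3 j c) ≤ overlap (l3 i b) (r3 i b) (l3 j c) (r3 j c) := by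
  interval_cases i <;> interval_cases j <;> cases b <;> cases c <;>
    simp at h ⊢ <;> simp [t3, l3, r3, overlap, max_def, min_def] <;> norm_num

lemma max_three {n : ℕ} (hn : n ≤ 3) : IsMaxTolerance (cocktail n) := by
  refine ⟨fun v => l3 v.1 v.2, fun v => r3 v.1 v.2, fun v => t3 v.1 v.2, ?_, ?_, ?_⟩
  · rintro ⟨i, b⟩
    simp only [l3, r3]
    split_ifs <;> norm_num
  · rintro ⟨i, b⟩
    simp only [t3]
    split_ifs <;> norm_num
  · rintro ⟨i, b⟩ ⟨j, c⟩ hne
    have h : (i : ℕ) ≠ (j : ℕ) ∨ b ≠ c := by
      by_contra hcon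
      push Not at hcon
      exact hne (Prod.ext (Fin.ext hcon.1) hcon.2)
    rw [← three_ok i j (by omega) (by omega) b c h]
    show i ≠ j ↔ (i : ℕ) ≠ (j : ℕ)
    rw [Ne, Fin.ext_iff]

/-- **Not every bounded tolerance graph is a max-tolerance graph.** Every cocktail party graph
`K_{2,...,2}` (with `n` parts) is a bounded tolerance graph, and it is a max-tolerance graph if and
only if `n ≤ 3`. In particular `K_{2,2,2,2}` is a bounded tolerance graph with eight vertices which
is not a max-tolerance graph. -/
theorem result :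
    (∀ n : ℕ, IsBoundedTolerance (cocktail n)) ∧
    (∀ n : ℕ, IsMaxTolerance (cocktail n) ↔ n ≤ 3) := by
  refine ⟨bounded, fun n => ⟨fun h => ?_, fun h => max_three h⟩⟩
  by_contra hn
  exact not_max (by omega) h

end Pool.Agent.Results.MP_78c384_co.CocktailParty
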